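import Pool.Agent.GEN.StmtsV

/-!
# Squad GEN, row XTV: from large `n` to all `n`
-/

set_option autoImplicit false

namespace Pool.Agent.GEN.H86

open MvPolynomial Finset Pool.Agent.GEN

section

variable {σ A : Type} [CommRing A]

/-- `f ^ K g(n) = W(n) f ^ n` for a polynomial `W` in `n` -/
def Rg (f : MvPolynomial σ A) (K : ℕ) (g : ℕ → MvPolynomial σ A) : Prop :=
  ∃ W : Polynomial (MvPolynomial σ A), ∀ n : ℕ,
    f ^ K * g n = W.eval (n : MvPolynomial σ A) * f ^ n

variable {f : MvPolynomial σ A}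

theorem Rg.mono {K K' : ℕ} {g : ℕ → MvPolynomial σ A} (h : K ≤ K') (hg : Rg f K g) :
    Rg f K' g := by
  obtain ⟨W, hW⟩ := hg
  refine ⟨Polynomial.C (f ^ (K' - K)) * W, fun n => ?_⟩
  rw [Polynomial.eval_mul, Polynomial.eval_C, mul_assoc, ← hW n, ← mul_assoc, ← pow_add,
    Nat.sub_add_cancel h]

theorem Rg.add {K : ℕ} {g g' : ℕ → MvPolynomial σ A} (hg : Rg f K g) (hg' : Rg f K g') :
    Rg f K (fun n => g n + g' n) := by
  obtain ⟨W, hW⟩ := hg
  obtain ⟨W', hW'⟩ := hg'
  refine ⟨W + W', fun n => ?_⟩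
  rw [mul_add, hW, hW', Polynomial.eval_add, add_mul]

theorem Rg.mul {K : ℕ} {g : ℕ → MvPolynomial σ A} (p : Polynomial (MvPolynomial σ A))
    (hg : Rg f K g) : Rg f K (fun n => p.eval (n : MvPolynomial σ A) * g n) := by
  obtain ⟨W, hW⟩ := hg
  refine ⟨p * W, fun n => ?_⟩
  rw [Polynomial.eval_mul, mul_left_comm, hW, mul_assoc]

theorem Rg.zero : Rg f 0 (fun _ => (0 : MvPolynomial σ A)) :=
  ⟨0, fun n => by rw [mul_zero, Polynomial.eval_zero, zero_mul]⟩

theorem pderiv_natCast (i : σ) (n : ℕ) : pderiv i ((n : ℕ) : MvPolynomial σ A) = 0 := by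
  rw [← map_natCast (C : A →+* MvPolynomial σ A), pderiv_C]

/-- the derivative of the coefficients -/
theorem exists_DP (i : σ) (W : Polynomial (MvPolynomial σ A)) :
    ∃ W' : Polynomial (MvPolynomial σ A), ∀ n : ℕ,
      pderiv i (W.eval (n : MvPolynomial σ A)) = W'.eval (n : MvPolynomial σ A) := by
  induction W using Polynomial.induction_on' with
  | add p q hp hq =>
    obtain ⟨p', hp'⟩ := hp
    obtain ⟨q', hq'⟩ := hq
    exact ⟨p' + q', fun n => by
      rw [Polynomial.eval_add, map_add, hp', hq', Polynomial.eval_add]⟩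
  | monomial m a =>
    refine ⟨Polynomial.monomial m (pderiv i a), fun n => ?_⟩
    rw [Polynomial.eval_monomial, Polynomial.eval_monomial, Derivation.leibniz,
      Derivation.leibniz_pow, pderiv_natCast, smul_zero, smul_zero, smul_zero, zero_add,
      smul_eq_mul, mul_comm]

theorem mul_pderiv_pow (i : σ) (g : MvPolynomial σ A) (n : ℕ) :
    g * pderiv i (g ^ n) = (n : MvPolynomial σ A) * pderiv i g * g ^ n := by
  rcases n with _ | n
  · rw [pow_zero, pderiv_one, mul_zero, Nat.cast_zero, zero_mul, zero_mul]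
  · rw [Derivation.leibniz_pow, Nat.add_sub_cancel, smul_eq_mul, nsmul_eq_mul, pow_succ]
    ring

theorem Rg.pd {K : ℕ} {g : ℕ → MvPolynomial σ A} (i : σ) (hg : Rg f K g) :
    Rg f (K + 1) (fun n => pderiv i (g n)) := by
  obtain ⟨W, hW⟩ := hg
  obtain ⟨W', hW'⟩ := exists_DP i W
  refine ⟨Polynomial.C f * W' + Polynomial.X * Polynomial.C (pderiv i f) * W
    - Polynomial.C ((K : MvPolynomial σ A) * pderiv i f) * W, fun n => ?_⟩
  have h1 := congrArg (fun y => f * pderiv i y) (hW n)
  simp only [Derivation.leibniz, smul_eq_mul] at h1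
  have h2 := mul_pderiv_pow i f K
  have h3 := mul_pderiv_pow i f n
  rw [hW' n] at h1
  have h4 : f ^ (K + 1) * pderiv i (g n) =
      (f * (f ^ K * pderiv i (g n) + g n * pderiv i (f ^ K))) - (f * pderiv i (f ^ K)) * g n := by
    rw [pow_succ]
    ring
  rw [h4, h1, h2, Polynomial.eval_sub, Polynomial.eval_add, Polynomial.eval_mul,
    Polynomial.eval_mul, Polynomial.eval_mul, Polynomial.eval_mul, Polynomial.eval_C,
    Polynomial.eval_C, Polynomial.eval_C, Polynomial.eval_X]
  have h5 : f * (W.eval (n : MvPolynomial σ A) * pderiv i (f ^ n) +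
      f ^ n * W'.eval (n : MvPolynomial σ A)) =
      W.eval (n : MvPolynomial σ A) * (f * pderiv i (f ^ n)) +
      f * f ^ n * W'.eval (n : MvPolynomial σ A) := by ring
  have h6 : (K : MvPolynomial σ A) * pderiv i f * f ^ K * g n =
      (K : MvPolynomial σ A) * pderiv i f * (W.eval (n : MvPolynomial σ A) * f ^ n) := by
    rw [mul_assoc, hW n]
  rw [h5, h3, h6]
  ring

theorem Rg.word {K : ℕ} {g : ℕ → MvPolynomial σ A} (hg : Rg f K g) (w : List σ) :
    Rg f (K + w.length) (fun n => dWordR w (g n)) := by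
  induction w with
  | nil => exact hg
  | cons i w ih =>
    have h := ih.pd i
    rw [List.length_cons, ← add_assoc]
    exact h

theorem Rg.op {K : ℕ} {g : ℕ → MvPolynomial σ A} (hg : Rg f K g)
    (P : List (Polynomial (MvPolynomial σ A) × List σ)) :
    ∃ K' : ℕ, Rg f K' (fun n => opR P n (g n)) := by
  induction P with
  | nil =>
    refine ⟨0, ?_⟩
    have : (fun n => opR ([] : List (Polynomial (MvPolynomial σ A) × List σ)) n (g n))
        = fun _ => (0 : MvPolynomial σ A) := by
      funext n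
      unfold opR
      rw [List.map_nil, List.sum_nil]
    rw [this]
    exact Rg.zero
  | cons q P ih =>
    obtain ⟨K', hK'⟩ := ih
    refine ⟨max (K + q.2.length) K', ?_⟩
    have h1 := ((hg.word q.2).mul q.1).mono (le_max_left (K + q.2.length) K')
    have h2 := hK'.mono (le_max_right (K + q.2.length) K')
    have h3 := h1.add h2
    have : (fun n : ℕ => opR (q :: P) n (g n)) = fun n : ℕ =>
        q.1.eval (n : MvPolynomial σ A) * dWordR q.2 (g n) + opR P n (g n) := by
      funext n
      unfold opR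
      rw [List.map_cons, List.sum_cons]
    rw [this]
    exact h3

end

theorem xtv : XtvStmt := by
  intro σ _ A _ _ _ f hf a s₀ P Q hlarge n
  obtain ⟨n₀, hn₀⟩ := hlarge
  have hpow : Rg f 0 (fun n => f ^ n) :=
    ⟨1, fun n => by rw [pow_zero, one_mul, Polynomial.eval_one, one_mul]⟩
  have hpow1 : Rg f 0 (fun n => f ^ (n + 1)) :=
    ⟨Polynomial.C f, fun n => by
      simp only [pow_zero, one_mul, Polynomial.eval_C]
      rw [pow_succ, mul_comm]⟩
  obtain ⟨K1, h1⟩ := hpow.op Q
  obtain ⟨K2, h2⟩ := hpow1.op P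
  have h0 := (hpow.mul (Polynomial.C (C a))).mono (Nat.zero_le (max K1 K2))
  have h1' := (((h1.mul (Polynomial.X - Polynomial.C (C s₀))).mul (Polynomial.C (-1))).mono
    (le_max_left K1 K2))
  have h2' := ((h2.mul (Polynomial.C (-1))).mono (le_max_right K1 K2))
  obtain ⟨W, hW⟩ := (h0.add (h1'.add h2'))
  have hW0 : W = 0 := by
    refine Polynomial.eq_of_infinite_eval_eq W 0 ?_
    refine Set.infinite_of_injective_forall_mem
      (f := fun n : ℕ => ((n + n₀ : ℕ) : MvPolynomial σ A)) ?_ ?_
    · intro a b hab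
      have h3 : a + n₀ = b + n₀ := Nat.cast_injective hab
      omega
    · intro m
      have h3 := hW (m + n₀)
      have h4 := hn₀ (m + n₀) (by omega)
      have h5 : W.eval ((m + n₀ : ℕ) : MvPolynomial σ A) * f ^ (m + n₀) = 0 := by
        rw [← h3]
        simp only [Polynomial.eval_C, Polynomial.eval_sub, Polynomial.eval_X]
        rw [h4, C_sub, map_natCast]
        ring
      rcases mul_eq_zero.mp h5 with h6 | h6
      · change W.eval _ = (0 : Polynomial (MvPolynomial σ A)).eval _
        rw [Polynomial.eval_zero]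
        exact h6
      · exact absurd h6 (pow_ne_zero _ hf)
  have h3 := hW n
  rw [hW0, Polynomial.eval_zero, zero_mul] at h3
  simp only [Polynomial.eval_C, Polynomial.eval_sub, Polynomial.eval_X] at h3
  rcases mul_eq_zero.mp h3 with h6 | h6
  · exact absurd h6 (pow_ne_zero _ hf)
  · have h7 : C a * f ^ n - (C ((n : A) - s₀) * opR Q n (f ^ n) + opR P n (f ^ (n + 1))) = 0 := by
      rw [← h6, C_sub, map_natCast]
      ring
    exact sub_eq_zero.mp h7

end Pool.Agent.GEN.H86
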